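import Pool.Agent.D0H94.G3.Pow

/-!
# The exponents of `u (2 n) / u n ^ 2` and of `u n`
-/

set_option autoImplicit false
set_option linter.unusedVariables false

namespace Pool.Agent.D0H94.G3

open Filter Topology
open Pool.Agent.R79.SW (ex Lims Slow main)

variable {u : ℕ → ℝ} {β : ℝ}

/-- the sequence `u (2 n) / u n ^ 2` -/
noncomputable def dbl (u : ℕ → ℝ) (n : ℕ) : ℝ := u (2 * n) / u n ^ 2

lemma Hyp.inv (H : Hyp u β) : Hyp (fun n => (u n)⁻¹) β := by
  obtain ⟨M, hM, h⟩ := H.one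
  refine ⟨fun n => inv_pos.mpr (H.pos n), H.β0, H.β1, ⟨M, hM, ?_⟩, fun ε hε => ?_⟩
  · filter_upwards [h] with n h1
    have p0 := H.pos n
    have p1 := H.pos (n + 1)
    constructor
    · rw [inv_le_iff_one_le_mul₀ p1]
      calc (1 : ℝ) = (u n)⁻¹ * u n := by field_simp
        _ ≤ (u n)⁻¹ * (M * u (n + 1)) := by gcongr; exact h1.2
        _ = _ := by ring
    · rw [inv_le_iff_one_le_mul₀ p0]
      calc (1 : ℝ) = (u (n + 1))⁻¹ * u (n + 1) := by field_simp
        _ ≤ (u (n + 1))⁻¹ * (M * u n) := by gcongr; exact h1.1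
        _ = _ := by ring
  · obtain ⟨K, hK, h⟩ := H.rate ε hε
    refine ⟨K, hK, h.mono fun n h1 => ?_⟩
    rw [Real.log_inv, Real.log_inv, show -Real.log (u (n + 2)) - -Real.log (u n) =
      -(Real.log (u (n + 2)) - Real.log (u n)) by ring, abs_neg]
    exact h1

lemma Hyp.dbl (H : Hyp u β) : Hyp (dbl u) β := by
  obtain ⟨M, hM, h⟩ := H.one
  have hp : ∀ n, 0 < G3.dbl u n := fun n => div_pos (H.pos _) (pow_pos (H.pos n) 2)
  refine ⟨hp, H.β0, H.β1, ⟨M ^ 4, one_le_pow₀ hM, ?_⟩, fun ε hε => ?_⟩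
  · obtain ⟨N, hN⟩ := eventually_atTop.mp h
    filter_upwards [eventually_ge_atTop N] with n hn
    have a := hN n hn
    have b := hN (2 * n) (by omega)
    have c := hN (2 * n + 1) (by omega)
    have p0 := H.pos n
    have p1 := H.pos (n + 1)
    have p2 := H.pos (2 * n)
    have p3 := H.pos (2 * n + 1)
    have p4 := H.pos (2 * n + 2)
    have M0 : 0 < M := by linarith
    have up : u (2 * n + 2) ≤ M ^ 2 * u (2 * n) := by
      calc u (2 * n + 2) ≤ M * u (2 * n + 1) := c.1
        _ ≤ M * (M * u (2 * n)) := by gcongr; exact b.1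
        _ = _ := by ring
    have dn : u (2 * n) ≤ M ^ 2 * u (2 * n + 2) := by
      calc u (2 * n) ≤ M * u (2 * n + 1) := b.2
        _ ≤ M * (M * u (2 * n + 2)) := by gcongr; exact c.2
        _ = _ := by ring
    have s1 : u (n + 1) ^ 2 ≤ M ^ 2 * u n ^ 2 := by
      rw [← mul_pow]; exact pow_le_pow_left₀ p1.le a.1 2
    have s2 : u n ^ 2 ≤ M ^ 2 * u (n + 1) ^ 2 := by
      rw [← mul_pow]; exact pow_le_pow_left₀ p0.le a.2 2
    unfold G3.dbl
    rw [show 2 * (n + 1) = 2 * n + 2 by ring]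
    constructor
    · rw [div_le_iff₀ (by positivity)]
      have : M ^ 4 * (u (2 * n) / u n ^ 2) * u (n + 1) ^ 2 =
          (M ^ 2 * u (2 * n)) * (M ^ 2 * u (n + 1) ^ 2 / u n ^ 2) := by field_simp
      rw [this]
      have h1 : 1 ≤ M ^ 2 * u (n + 1) ^ 2 / u n ^ 2 := by
        rw [le_div_iff₀ (by positivity), one_mul]; exact s2
      have h0 : 0 < M ^ 2 * u (2 * n) := by positivity
      nlinarith
    · rw [div_le_iff₀ (by positivity)]
      have : M ^ 4 * (u (2 * n + 2) / u (n + 1) ^ 2) * u n ^ 2 =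
          (M ^ 2 * u (2 * n + 2)) * (M ^ 2 * u n ^ 2 / u (n + 1) ^ 2) := by field_simp
      rw [this]
      have h1 : 1 ≤ M ^ 2 * u n ^ 2 / u (n + 1) ^ 2 := by
        rw [le_div_iff₀ (by positivity), one_mul]; exact s1
      have h0 : 0 < M ^ 2 * u (2 * n + 2) := by positivity
      nlinarith
  · obtain ⟨K, hK, h⟩ := H.rate (min ε β) (lt_min hε H.β0)
    obtain ⟨N, hN⟩ := eventually_atTop.mp h
    refine ⟨4 * K, by positivity, ?_⟩
    filter_upwards [eventually_ge_atTop (max N 1)] with n hn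
    have hnN : N ≤ n := (le_max_left _ _).trans hn
    have hn1 : 1 ≤ n := (le_max_right _ _).trans hn
    have hn0 : (1 : ℝ) ≤ n := by exact_mod_cast hn1
    set e := min ε β with he
    have e1 : e ≤ β := min_le_right _ _
    have e2 : e ≤ ε := min_le_left _ _
    have key : ∀ m : ℕ, n ≤ m → |Real.log (u (m + 2)) - Real.log (u m)| ≤
        K * (n : ℝ) ^ (-β + ε) := by
      intro m hm
      refine (hN m (by omega)).trans (mul_le_mul_of_nonneg_left ?_ hK)
      calc (m : ℝ) ^ (-β + e) ≤ (n : ℝ) ^ (-β + e) :=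
            Real.rpow_le_rpow_of_nonpos (by linarith) (by exact_mod_cast hm) (by linarith)
        _ ≤ (n : ℝ) ^ (-β + ε) := Real.rpow_le_rpow_of_exponent_le hn0 (by linarith)
    have l : ∀ m, Real.log (G3.dbl u m) = Real.log (u (2 * m)) - 2 * Real.log (u m) := by
      intro m
      unfold G3.dbl
      rw [Real.log_div (H.pos _).ne' (pow_pos (H.pos m) 2).ne', Real.log_pow]
      push_cast
      ring
    rw [l, l]
    have k0 := abs_le.mp (key n le_rfl)
    have k1 := abs_le.mp (key (2 * n) (by omega))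
    have k2 := abs_le.mp (key (2 * n + 2) (by omega))
    rw [show 2 * (n + 2) = 2 * n + 2 + 2 by ring, abs_le]
    constructor
    · linarith [k0.1, k0.2, k1.1, k1.2, k2.1, k2.2]
    · linarith [k0.1, k0.2, k1.1, k1.2, k2.1, k2.2]

/-- if the exponents do not tend to infinity, are bounded below and do not converge, then they pass
all the levels of an interval -/
lemma tri {g : ℕ → ℝ} {b : ℝ} (hb : ∀ᶠ n in atTop, b ≤ g n) :
    Tendsto g atTop atTop ∨ (∃ γ, Tendsto g atTop (𝓝 γ)) ∨
    ∃ x y : ℝ, x < y ∧ ∀ c ∈ Set.Ioo x y, ∃ η : ℝ, 0 < η ∧ (∃ᶠ n in atTop, g n ≤ c - η) ∧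
      ∃ᶠ n in atTop, c + η ≤ g n := by
  by_cases h1 : Tendsto g atTop atTop
  · exact Or.inl h1
  right
  by_cases h2 : ∃ γ, Tendsto g atTop (𝓝 γ)
  · exact Or.inl h2
  right
  rw [tendsto_atTop] at h1
  push Not at h1
  obtain ⟨D, hD⟩ := h1
  have h3 : ∃ᶠ n in atTop, g n ∈ Set.Icc b D :=
    (hD.and_eventually hb).mono fun n hn => ⟨hn.2, (lt_of_not_ge (by simpa using hn.1)).le⟩
  obtain ⟨γ, -, hγ⟩ := (isCompact_Icc (a := b) (b := D)).exists_mapClusterPt_of_frequently h3
  have hγ' : γ ∈ Lims g := hγ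
  push Not at h2
  obtain ⟨ε, hε, h | h⟩ := Pool.Agent.R79.SW.not_tendsto (h2 γ)
  · refine ⟨γ - ε, γ, by linarith, fun c hc => ?_⟩
    have m1 := min_le_left (c - (γ - ε)) ((γ - c) / 2)
    have m2 := min_le_right (c - (γ - ε)) ((γ - c) / 2)
    refine ⟨min (c - (γ - ε)) ((γ - c) / 2), lt_min (by linarith [hc.1]) (by linarith [hc.2]),
      h.mono fun n hn => by linarith, (Pool.Agent.R79.SW.freq_high hγ'
      (show (γ + c) / 2 < γ by linarith [hc.2])).mono fun n hn => by linarith⟩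
  · refine ⟨γ, γ + ε, by linarith, fun c hc => ?_⟩
    have m1 := min_le_left ((c - γ) / 2) (γ + ε - c)
    have m2 := min_le_right ((c - γ) / 2) (γ + ε - c)
    refine ⟨min ((c - γ) / 2) (γ + ε - c), lt_min (by linarith [hc.1]) (by linarith [hc.2]),
      (Pool.Agent.R79.SW.freq_low hγ' (show γ < (γ + c) / 2 by linarith [hc.1])).mono
      fun n hn => by linarith, h.mono fun n hn => by linarith⟩

/-- the hypotheses for the comparison of the exponents -/
structure Hyp2 (u : ℕ → ℝ) (β : ℝ) : Prop extends Hyp u β where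
  ge : ∀ n, 1 ≤ u n
  sub : ∀ n, u (2 * n) ≤ u n ^ 2
  lin : Tendsto (fun n : ℕ => Real.log (u n) / n) atTop (𝓝 0)

/-- `-log (u (2 n) / u n ^ 2) / log n` -/
noncomputable def hx (u : ℕ → ℝ) (n : ℕ) : ℝ := -Real.log (dbl u n) / Real.log n

lemma log_dbl (H : Hyp u β) (m : ℕ) :
    Real.log (dbl u m) = Real.log (u (2 * m)) - 2 * Real.log (u m) := by
  unfold dbl
  rw [Real.log_div (H.pos _).ne' (pow_pos (H.pos m) 2).ne', Real.log_pow]
  push_cast
  ring

lemma hx_eq (H : Hyp u β) : hx u = ex (fun n => (dbl u n)⁻¹) := by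
  funext n
  unfold hx ex
  rw [Real.log_inv]

lemma hx_neg (n : ℕ) : hx u n = -ex (dbl u) n := by
  unfold hx ex
  rw [neg_div]

/-- lower bounds pass from `h` to `g` -/
lemma claimL (H : Hyp2 u β) {c : ℝ} (h : ∀ᶠ n in atTop, c ≤ hx u n) :
    ∀ᶠ n in atTop, c ≤ ex u n := by
  obtain ⟨N, hN⟩ := eventually_atTop.mp h
  have y0 : ∀ n, 0 ≤ Real.log (u n) := fun n => Real.log_nonneg (H.ge n)
  filter_upwards [eventually_ge_atTop (max N 2)] with n hn
  have hn2 : 2 ≤ n := (le_max_right _ _).trans hn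
  have hn1 : (1 : ℝ) < n := by exact_mod_cast (show 1 < n by omega)
  have hl : 0 < Real.log n := Real.log_pos hn1
  rcases lt_or_ge c 0 with hc | hc
  · exact hc.le.trans (div_nonneg (y0 n) hl.le)
  have key : ∀ k : ℕ, ∀ m : ℕ, max N 2 ≤ m →
      c * (1 - (1 / 2 : ℝ) ^ k) * Real.log m ≤ Real.log (u m) := by
    intro k
    induction k with
    | zero => intro m hm; simpa using y0 m
    | succ k ih =>
      intro m hm
      have hm2 : 2 ≤ m := (le_max_right _ _).trans hm
      have hm1 : (1 : ℝ) < m := by exact_mod_cast (show 1 < m by omega)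
      have hlm : 0 < Real.log m := Real.log_pos hm1
      have a := hN m ((le_max_left _ _).trans hm)
      unfold hx at a
      rw [le_div_iff₀ hlm, log_dbl H.toHyp] at a
      have b := ih (2 * m) (by omega)
      have e : Real.log ((2 * m : ℕ) : ℝ) = Real.log 2 + Real.log m := by
        push_cast
        rw [Real.log_mul (by norm_num) (by linarith)]
      rw [e] at b
      have l2 : 0 ≤ Real.log 2 := Real.log_nonneg (by norm_num)
      have q : (1 / 2 : ℝ) ^ k ≤ 1 := pow_le_one₀ (by norm_num) (by norm_num)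
      have q2 : 0 ≤ c * (1 - (1 / 2 : ℝ) ^ k) * Real.log 2 :=
        mul_nonneg (mul_nonneg hc (by linarith)) l2
      rw [pow_succ]
      nlinarith
  have t : Tendsto (fun k : ℕ => c * (1 - (1 / 2 : ℝ) ^ k) * Real.log n) atTop
      (𝓝 (c * (1 - 0) * Real.log n)) :=
    ((tendsto_const_nhds.sub (tendsto_pow_atTop_nhds_zero_of_lt_one (by norm_num)
      (by norm_num))).const_mul c).mul_const _
  rw [sub_zero, mul_one] at t
  unfold ex
  rw [le_div_iff₀ hl]
  exact le_of_tendsto' t fun k => key k n hn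

/-- upper bounds pass from `h` to `g` -/
lemma claimR (H : Hyp2 u β) {c δ : ℝ} (hδ : 0 < δ) (h : ∀ᶠ n in atTop, hx u n ≤ c) :
    ∀ᶠ n in atTop, ex u n ≤ c + δ := by
  obtain ⟨N, hN⟩ := eventually_atTop.mp h
  have y0 : ∀ n, 0 ≤ Real.log (u n) := fun n => Real.log_nonneg (H.ge n)
  -- `c ≥ 0`
  have hc : 0 ≤ c := by
    have hm2 : 2 ≤ max N 2 := le_max_right _ _
    have hm1 : (1 : ℝ) < (max N 2 : ℕ) := by exact_mod_cast (show 1 < max N 2 by omega)
    have hl : 0 < Real.log ((max N 2 : ℕ) : ℝ) := Real.log_pos hm1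
    refine le_trans ?_ (hN (max N 2) (le_max_left _ _))
    unfold hx
    refine div_nonneg ?_ hl.le
    have hp : 0 < dbl u (max N 2) := H.toHyp.dbl.pos _
    have : Real.log (dbl u (max N 2)) ≤ 0 := by
      apply Real.log_nonpos hp.le
      unfold dbl
      rw [div_le_one (pow_pos (H.pos _) 2)]
      exact H.sub _
    linarith
  have l2 : 0 ≤ Real.log 2 := Real.log_nonneg (by norm_num)
  have hbig : ∀ᶠ n : ℕ in atTop, c * Real.log 2 ≤ δ * Real.log n :=
    (Pool.Agent.R79.SW.log_tend.const_mul_atTop hδ).eventually_ge_atTop _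
  filter_upwards [eventually_ge_atTop (max N 2), hbig] with n hn hb
  have hn2 : 2 ≤ n := (le_max_right _ _).trans hn
  have hn1 : (1 : ℝ) < n := by exact_mod_cast (show 1 < n by omega)
  have hl : 0 < Real.log n := Real.log_pos hn1
  have key : ∀ k : ℕ, (2 : ℝ) ^ k * (Real.log (u n) - c * (Real.log n + Real.log 2)) ≤
      Real.log (u (2 ^ k * n)) - c * (Real.log ((2 ^ k * n : ℕ) : ℝ) + Real.log 2) := by
    intro k
    induction k with
    | zero => simp
    | succ k ih =>
      have hle : n ≤ 2 ^ k * n := Nat.le_mul_of_pos_left n (by positivity)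
      have hm2 : 2 ≤ 2 ^ k * n := by omega
      have hm1 : (1 : ℝ) < ((2 ^ k * n : ℕ) : ℝ) := by exact_mod_cast (show 1 < 2 ^ k * n by omega)
      have hlm : 0 < Real.log ((2 ^ k * n : ℕ) : ℝ) := Real.log_pos hm1
      have a := hN (2 ^ k * n) (((le_max_left _ _).trans hn).trans hle)
      unfold hx at a
      rw [div_le_iff₀ hlm, log_dbl H.toHyp] at a
      have e : Real.log ((2 ^ (k + 1) * n : ℕ) : ℝ) =
          Real.log 2 + Real.log ((2 ^ k * n : ℕ) : ℝ) := by
        rw [← Real.log_mul (by norm_num) (by linarith)]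
        congr 1
        push_cast
        ring
      rw [e, show 2 ^ (k + 1) * n = 2 * (2 ^ k * n) by ring, pow_succ]
      linarith
  have fin : Real.log (u n) ≤ c * (Real.log n + Real.log 2) := by
    by_contra hcon
    push Not at hcon
    set z := Real.log (u n) - c * (Real.log n + Real.log 2) with hz
    have hz0 : 0 < z := by linarith
    have t : Tendsto (fun k : ℕ => 2 ^ k * n) atTop atTop :=
      (tendsto_pow_atTop_atTop_of_one_lt (by norm_num)).atTop_mul_const' (by omega)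
    have t2 := (H.lin.comp t).eventually_lt_const (show (0 : ℝ) < z / n by positivity)
    obtain ⟨k, hk⟩ := t2.exists
    have a := key k
    have hp : (0 : ℝ) < ((2 ^ k * n : ℕ) : ℝ) := by positivity
    simp only [Function.comp_apply] at hk
    rw [div_lt_iff₀ hp] at hk
    have e : z / n * ((2 ^ k * n : ℕ) : ℝ) = 2 ^ k * z := by
      push_cast
      field_simp
    rw [e] at hk
    have h3 : 0 ≤ Real.log ((2 ^ k * n : ℕ) : ℝ) := Real.log_natCast_nonneg _
    have h4 : 0 ≤ c * (Real.log ((2 ^ k * n : ℕ) : ℝ) + Real.log 2) :=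
      mul_nonneg hc (by linarith)
    linarith
  unfold ex
  rw [div_le_iff₀ hl]
  linarith

lemma hx_nonneg (H : Hyp2 u β) (n : ℕ) : 0 ≤ hx u n := by
  unfold hx
  refine div_nonneg ?_ (Real.log_natCast_nonneg n)
  have : Real.log (dbl u n) ≤ 0 := by
    apply Real.log_nonpos (H.toHyp.dbl.pos _).le
    unfold dbl
    rw [div_le_one (pow_pos (H.pos _) 2)]
    exact H.sub _
  linarith

lemma ex_nonneg (H : Hyp2 u β) (n : ℕ) : 0 ≤ ex u n :=
  div_nonneg (Real.log_nonneg (H.ge n)) (Real.log_natCast_nonneg n)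

/-- the limit points of `g` are limit points of `h` -/
theorem sub_lims (H : Hyp2 u β) : Lims (ex u) ⊆ Lims (hx u) := by
  intro x hx1
  have hlow : ∀ δ : ℝ, 0 < δ → ∃ᶠ n in atTop, hx u n ≤ x + δ := by
    intro δ hδ hcon
    have h1 : ∀ᶠ n in atTop, x + δ ≤ hx u n := hcon.mono fun n hn => (lt_of_not_ge hn).le
    have h2 := claimL H h1
    have h3 := Pool.Agent.R79.SW.freq_low hx1 (show x < x + δ / 2 by linarith)
    obtain ⟨n, a, b⟩ := (h3.and_eventually h2).exists
    linarith
  have hhigh : ∀ δ : ℝ, 0 < δ → ∃ᶠ n in atTop, x - δ ≤ hx u n := by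
    intro δ hδ hcon
    have h1 : ∀ᶠ n in atTop, hx u n ≤ x - δ := hcon.mono fun n hn => (lt_of_not_ge hn).le
    have h2 := claimR H (show 0 < δ / 2 by linarith) h1
    have h3 := Pool.Agent.R79.SW.freq_high hx1 (show x - δ / 4 < x by linarith)
    obtain ⟨n, a, b⟩ := (h3.and_eventually h2).exists
    linarith
  by_contra hcon
  have hcon' : ¬ MapClusterPt x atTop (hx u) := hcon
  rw [mapClusterPt_iff_frequently] at hcon'
  push Not at hcon'
  obtain ⟨s, hs, h1⟩ := hcon'
  obtain ⟨δ, hδ, hsub⟩ := Metric.mem_nhds_iff.mp hs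
  have h2 : ∀ᶠ n in atTop, δ ≤ |hx u n - x| := by
    filter_upwards [h1] with n hn
    by_contra hlt
    push Not at hlt
    exact hn (hsub (by rw [Metric.mem_ball, Real.dist_eq]; exact hlt))
  have h3 : ∃ᶠ n in atTop, hx u n ≤ x - δ := by
    refine ((hlow (δ / 2) (by linarith)).and_eventually h2).mono ?_
    rintro n ⟨a, b⟩
    rcases le_abs.mp b with h | h <;> linarith
  have h4 : ∃ᶠ n in atTop, x + δ ≤ hx u n := by
    refine ((hhigh (δ / 2) (by linarith)).and_eventually h2).mono ?_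
    rintro n ⟨a, b⟩
    rcases le_abs.mp b with h | h <;> linarith
  obtain ⟨K, M, hK, S, -⟩ := H.toHyp.dbl.inv.slow (ε := β / 2) (by linarith [H.β0])
    (by linarith [H.β0])
  rw [hx_eq H.toHyp] at h3 h4 hcon
  exact hcon (Pool.Agent.R79.SW.between S h3 h4 (by linarith) (by linarith))

/-- convergence of `h` gives convergence of `g` -/
theorem tend_of_hx (H : Hyp2 u β) {γ : ℝ} (h : Tendsto (hx u) atTop (𝓝 γ)) :
    Tendsto (ex u) atTop (𝓝 γ) := by
  rw [tendsto_order]
  constructor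
  · intro a ha
    have h1 : ∀ᶠ n in atTop, (a + γ) / 2 ≤ hx u n :=
      h.eventually_const_le (by linarith)
    filter_upwards [claimL H h1] with n hn
    linarith
  · intro a ha
    have h1 : ∀ᶠ n in atTop, hx u n ≤ (a + γ) / 2 :=
      h.eventually_le_const (by linarith)
    filter_upwards [claimR H (show 0 < (a - γ) / 4 by linarith) h1] with n hn
    linarith

/-- convergence of `g` gives convergence of `h` -/
theorem hx_of_tend (H : Hyp2 u β) {γ : ℝ} (h : Tendsto (ex u) atTop (𝓝 γ)) :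
    Tendsto (hx u) atTop (𝓝 γ) := by
  have t2 : Tendsto (fun n : ℕ => 2 * n) atTop atTop :=
    tendsto_id.const_mul_atTop' (by norm_num)
  have h2 := h.comp t2
  have h3 : Tendsto (fun n : ℕ => 1 + Real.log 2 / Real.log n) atTop (𝓝 (1 + 0)) :=
    tendsto_const_nhds.add (Tendsto.const_div_atTop Pool.Agent.R79.SW.log_tend _)
  have h4 := (h.const_mul 2).sub (h2.mul h3)
  have e : 2 * γ - γ * (1 + 0) = γ := by ring
  rw [e] at h4
  refine h4.congr' ?_
  filter_upwards [eventually_ge_atTop 2] with n hn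
  have hn1 : (1 : ℝ) < n := by exact_mod_cast (show 1 < n by omega)
  have hl : 0 < Real.log n := Real.log_pos hn1
  have l2 : 0 < Real.log 2 := Real.log_pos (by norm_num)
  have e2 : Real.log ((2 * n : ℕ) : ℝ) = Real.log 2 + Real.log n := by
    push_cast
    rw [Real.log_mul (by norm_num) (by linarith)]
  simp only [Function.comp_apply]
  unfold hx ex
  rw [log_dbl H.toHyp, e2]
  field_simp
  ring

theorem top_of_hx (H : Hyp2 u β) (h : Tendsto (hx u) atTop atTop) : Tendsto (ex u) atTop atTop := by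
  rw [tendsto_atTop] at h ⊢
  exact fun b => claimL H (h b)

end Pool.Agent.D0H94.G3
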