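import Pool.Agent.D0H94.G3.Dbl
import Pool.Agent.R956.Z3
import Pool.Agent.R956.V2

/-!
# The two instances: the normalised numbers of walks on `ℤ²` and on `ℤ³`
-/

set_option autoImplicit false
set_option linter.unusedVariables false

namespace Pool.Agent.D0H94.G3

open Filter Topology
open Pool.Agent.R79.SW (ex Lims Slow main)
open Pool.Agent.R956

/-- `log n / √n` against a power -/
lemma log_small {ε : ℝ} (hε : 0 < ε) :
    ∀ᶠ n : ℕ in atTop, Real.log n / Real.sqrt n ≤ (n : ℝ) ^ (-(1 / 2 : ℝ) + ε) := by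
  have h1 : ∀ᶠ x : ℝ in atTop, ‖Real.log x‖ ≤ 1 * ‖x ^ ε‖ :=
    (isLittleO_log_rpow_atTop hε).bound one_pos
  filter_upwards [tendsto_natCast_atTop_atTop.eventually h1, eventually_ge_atTop 1] with n h hn
  have hn0 : (0 : ℝ) < n := by exact_mod_cast hn
  have hp : 0 ≤ (n : ℝ) ^ ε := by positivity
  rw [one_mul, Real.norm_of_nonneg (Real.log_natCast_nonneg n), Real.norm_of_nonneg hp] at h
  have hs : 0 < Real.sqrt n := Real.sqrt_pos.mpr hn0
  rw [div_le_iff₀ hs, Real.sqrt_eq_rpow, ← Real.rpow_add hn0]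
  refine h.trans (le_of_eq ?_)
  congr 1
  ring

/-- walks on `ℤ²` -/
theorem hyp2 {r : ℕ → ℝ} {K b : ℝ} (S : V1.Sq r K b)
    (sub : ∀ n, r (2 * n) ≤ r n ^ 2) : Hyp2 r (1 / 2) := by
  refine ⟨⟨S.pos, by norm_num, by norm_num, ⟨b + 1, by linarith [S.hβ], S.step 1 one_pos⟩,
    fun ε hε => ?_⟩, S.one_le, sub, S.sub⟩
  refine ⟨2 * K, by linarith [S.hK], ?_⟩
  have t : Tendsto (fun n => K * D2.f n) atTop (𝓝 0) := by
    simpa using D2.f_tendsto.const_mul K
  filter_upwards [log_small hε, eventually_ge_atTop 2,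
    t.eventually_lt_const (show (0 : ℝ) < 1 / 2 by norm_num)] with n h1 hn h2
  have h3 := Pool.Agent.R79.SW.log_step (S.pos n) (S.pos (n + 2)) (S.rate n hn) h2.le
  refine h3.trans ?_
  have h4 : K * D2.f n ≤ K * (n : ℝ) ^ (-(1 / 2 : ℝ) + ε) := mul_le_mul_of_nonneg_left h1 S.hK
  linarith

/-- walks on `ℤ³` -/
theorem hyp3 : Hyp2 (fun n => (TH966.KO.c n : ℝ) / TH966.KO.μ ^ n) (1 / 3) := by
  have h := Z3.hy
  have hμ := h.mu
  have pos : ∀ n, 0 < (TH966.KO.c n : ℝ) / TH966.KO.μ ^ n := fun n => div_pos (h.pos n)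
    (pow_pos hμ n)
  have ly : ∀ n, Real.log ((TH966.KO.c n : ℝ) / TH966.KO.μ ^ n) =
      Z2.y (fun n => (TH966.KO.c n : ℝ)) TH966.KO.μ n := fun n => rfl
  have two : ∀ ε : ℝ, 0 < ε → ∃ K : ℝ, 0 ≤ K ∧ ∀ n : ℕ, 1 ≤ n →
      |Real.log ((TH966.KO.c (n + 2) : ℝ) / TH966.KO.μ ^ (n + 2)) -
        Real.log ((TH966.KO.c n : ℝ) / TH966.KO.μ ^ n)| ≤ K * (n : ℝ) ^ (-(1 / 3 : ℝ) + ε) := by
    intro ε hε
    obtain ⟨K, hK, h1⟩ := Z2.y_two h hε
    refine ⟨K, hK, fun n hn => ?_⟩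
    rw [ly, ly, abs_le]
    refine ⟨(h1 n hn).1, (h1 n hn).2.trans (mul_le_mul_of_nonneg_left ?_ hK)⟩
    exact Z2.rpow_le_of hn (by linarith)
  refine ⟨⟨pos, by norm_num, by norm_num, ?_, ?_⟩, ?_, ?_, ?_⟩
  · -- consecutive ratios
    obtain ⟨K, hK, h1⟩ := two (1 / 3) (by norm_num)
    have l5 := Z2.log5_nonneg h
    refine ⟨Real.exp (Real.log (5 / TH966.KO.μ) + K), Real.one_le_exp (by linarith), ?_⟩
    filter_upwards [eventually_ge_atTop 1] with n hn
    have a1 := Z2.y_one h hn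
    have a2 := Z2.y_one h (show 1 ≤ n + 1 by omega)
    have a3 := h1 n hn
    rw [ly, ly, show -(1 / 3 : ℝ) + 1 / 3 = 0 by norm_num, Real.rpow_zero, mul_one] at a3
    have a4 := abs_le.mp a3
    have e : ∀ m, (TH966.KO.c m : ℝ) / TH966.KO.μ ^ m =
        Real.exp (Z2.y (fun n => (TH966.KO.c n : ℝ)) TH966.KO.μ m) := by
      intro m
      rw [← ly, Real.exp_log (pos m)]
    rw [e, e, ← Real.exp_add, ← Real.exp_add]
    constructor
    · apply Real.exp_le_exp.mpr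
      linarith
    · apply Real.exp_le_exp.mpr
      have a5 : Z2.y (fun n => (TH966.KO.c n : ℝ)) TH966.KO.μ (n + 2) ≤
        Z2.y (fun n => (TH966.KO.c n : ℝ)) TH966.KO.μ (n + 1) + Real.log (5 / TH966.KO.μ) := a2
      linarith [a4.1]
  · intro ε hε
    obtain ⟨K, hK, h1⟩ := two ε hε
    refine ⟨K, hK, ?_⟩
    filter_upwards [eventually_ge_atTop 1] with n hn
    exact h1 n hn
  · intro n
    rw [one_le_div (pow_pos hμ n)]
    exact h.low n
  · intro n
    have h1 : (TH966.KO.c (n + n) : ℝ) ≤ TH966.KO.c n * TH966.KO.c n := h.add n n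
    rw [← two_mul] at h1
    rw [div_pow, ← pow_mul, mul_comm n 2]
    refine div_le_div_of_nonneg_right ?_ (pow_pos hμ _).le
    rw [sq]
    exact h1
  · obtain ⟨K, hK, h1⟩ := Z2.y_up h (show (1 : ℝ) / 3 < 1 / 2 by norm_num)
    have t : Tendsto (fun n : ℕ => K * (n : ℝ) ^ (-(1 / 2 : ℝ))) atTop (𝓝 0) := by
      have := ((tendsto_rpow_neg_atTop (show (0 : ℝ) < 1 / 2 by norm_num)).comp
        tendsto_natCast_atTop_atTop).const_mul K
      simpa using this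
    refine squeeze_zero' (Eventually.of_forall fun n => ?_) ?_ t
    · rw [ly]
      exact div_nonneg (Z2.y_nonneg h n) (Nat.cast_nonneg n)
    · filter_upwards [eventually_ge_atTop 1] with n hn
      have hn0 : (0 : ℝ) < n := by exact_mod_cast hn
      rw [ly, div_le_iff₀ hn0, mul_assoc]
      have e : (n : ℝ) ^ (-(1 / 2 : ℝ)) * n = (n : ℝ) ^ (1 / 2 : ℝ) := by
        conv_lhs => rw [← Real.rpow_one (n : ℝ), ← Real.rpow_mul hn0.le, ← Real.rpow_add hn0]
        norm_num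
      rw [e]
      exact h1 n

end Pool.Agent.D0H94.G3
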