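import Pool.Agent.R79.SW.Cross

/-!
# Positive sequences with slow variation along each parity: power laws along windows
-/

set_option autoImplicit false
set_option linter.unusedVariables false

namespace Pool.Agent.D0H94.G3

open Filter Topology
open Pool.Agent.R79.SW (ex Lims Slow main)

/-- slow variation along each parity with a rate `n ^ (-β + ε)`, and bounded consecutive ratios -/
structure Hyp (u : ℕ → ℝ) (β : ℝ) : Prop where
  pos : ∀ n, 0 < u n
  β0 : 0 < β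
  β1 : β < 1
  one : ∃ M : ℝ, 1 ≤ M ∧ ∀ᶠ n in atTop, u (n + 1) ≤ M * u n ∧ u n ≤ M * u (n + 1)
  rate : ∀ ε : ℝ, 0 < ε → ∃ K : ℝ, 0 ≤ K ∧
    ∀ᶠ n : ℕ in atTop, |Real.log (u (n + 2)) - Real.log (u n)| ≤ K * (n : ℝ) ^ (-β + ε)

/-- exact power laws with exponent `c` along windows of length `n ^ (β - ε)` -/
def PowerLaws (u : ℕ → ℝ) (β c : ℝ) : Prop :=
  ∀ B : ℝ, 0 < B → ∀ p : ℕ, p ≤ 1 → ∀ ε : ℝ, 0 < ε → ε < β → ∃ᶠ n : ℕ in atTop, ∀ m : ℕ,
    m % 2 = p → n ≤ m → (m : ℝ) ≤ n + (n : ℝ) ^ (β - ε) →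
    |u m / (m : ℝ) ^ c - B| ≤ (n : ℝ) ^ (-(ε / 2))

/-- a constant times a smaller power is eventually small against a power -/
lemma small {a b C : ℝ} (h : a < b) {δ : ℝ} (hδ : 0 < δ) :
    ∀ᶠ n : ℕ in atTop, C * (n : ℝ) ^ a ≤ δ * (n : ℝ) ^ b := by
  have t : Tendsto (fun n : ℕ => C * (n : ℝ) ^ (-(b - a))) atTop (𝓝 0) := by
    have h1 := (tendsto_rpow_neg_atTop (show (0 : ℝ) < b - a by linarith)).comp
      tendsto_natCast_atTop_atTop
    simpa using h1.const_mul C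
  filter_upwards [t.eventually_lt_const hδ, eventually_ge_atTop 1] with n h1 hn
  have hn0 : (0 : ℝ) < n := by exact_mod_cast hn
  have e : (n : ℝ) ^ a = (n : ℝ) ^ (-(b - a)) * (n : ℝ) ^ b := by
    rw [← Real.rpow_add hn0]; congr 1; ring
  rw [e, ← mul_assoc]
  exact mul_le_mul_of_nonneg_right h1.le (by positivity)

lemma rate_tend {β ε K : ℝ} (h : ε < β) :
    Tendsto (fun n : ℕ => K * (n : ℝ) ^ (-β + ε)) atTop (𝓝 0) := by
  have h1 := (tendsto_rpow_neg_atTop (show (0 : ℝ) < β - ε by linarith)).comp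
    tendsto_natCast_atTop_atTop
  have h2 := h1.const_mul K
  rw [mul_zero] at h2
  refine h2.congr fun n => ?_
  simp only [Function.comp_apply]
  congr 2
  ring

variable {u : ℕ → ℝ} {β : ℝ}

lemma Hyp.slow (H : Hyp u β) {ε : ℝ} (hε : 0 < ε) (hεβ : ε < β) : ∃ K M : ℝ, 0 ≤ K ∧
    Slow u (fun n => K * (n : ℝ) ^ (-β + ε)) M ∧
    ∀ᶠ n : ℕ in atTop, |Real.log (u (n + 2)) - Real.log (u n)| ≤ K * (n : ℝ) ^ (-β + ε) := by
  obtain ⟨K, hK, h⟩ := H.rate ε hε
  obtain ⟨M, hM, hone⟩ := H.one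
  refine ⟨2 * K, M, by linarith, ⟨H.pos, hM, ?_, rate_tend hεβ, hone⟩, ?_⟩
  · filter_upwards [h, (rate_tend (K := K) hεβ).eventually_lt_const (show (0 : ℝ) < 1 by norm_num)]
      with n h1 h2
    have p0 := H.pos n
    have p2 := H.pos (n + 2)
    have e : u (n + 2) / u n = Real.exp (Real.log (u (n + 2)) - Real.log (u n)) := by
      rw [Real.exp_sub, Real.exp_log p2, Real.exp_log p0]
    rw [e]
    refine (Real.abs_exp_sub_one_le (h1.trans h2.le)).trans ?_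
    linarith
  · filter_upwards [h] with n h1
    refine h1.trans ?_
    have : 0 ≤ (n : ℝ) ^ (-β + ε) := by positivity
    nlinarith

/-- the variation of `log u` in a window -/
lemma window {K a : ℝ} (hK : 0 ≤ K) (ha : a ≤ 0) {N : ℕ}
    (h : ∀ n : ℕ, N ≤ n → |Real.log (u (n + 2)) - Real.log (u n)| ≤ K * (n : ℝ) ^ a)
    {n : ℕ} (hn : N ≤ n) (hn1 : 1 ≤ n) (k : ℕ) :
    |Real.log (u (n + 2 * k)) - Real.log (u n)| ≤ k * (K * (n : ℝ) ^ a) := by
  have hn0 : (0 : ℝ) < n := by exact_mod_cast hn1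
  induction k with
  | zero => simp
  | succ k ih =>
    have h1 := h (n + 2 * k) (by omega)
    rw [show n + 2 * k + 2 = n + 2 * (k + 1) by ring] at h1
    have h2 : ((n + 2 * k : ℕ) : ℝ) ^ a ≤ (n : ℝ) ^ a :=
      Real.rpow_le_rpow_of_nonpos hn0 (by push_cast; linarith [(Nat.cast_nonneg k : (0:ℝ) ≤ k)]) ha
    have h3 : K * ((n + 2 * k : ℕ) : ℝ) ^ a ≤ K * (n : ℝ) ^ a := mul_le_mul_of_nonneg_left h2 hK
    have h4 : Real.log (u (n + 2 * (k + 1))) - Real.log (u n) =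
        (Real.log (u (n + 2 * (k + 1))) - Real.log (u (n + 2 * k))) +
          (Real.log (u (n + 2 * k)) - Real.log (u n)) := by ring
    rw [h4]
    refine (abs_add_le _ _).trans ?_
    push_cast
    linarith

/-- **Power laws along windows.** -/
theorem pow_window (H : Hyp u β) {c η : ℝ} (hη : 0 < η) (h1 : ∃ᶠ n in atTop, ex u n ≤ c - η)
    (h2 : ∃ᶠ n in atTop, c + η ≤ ex u n) : PowerLaws u β c := by
  intro B hB p hp ε hε hεβ
  have hβ0 := H.β0
  have hβ1 := H.β1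
  obtain ⟨K, M, hK, S, hrate⟩ := H.slow (ε := ε / 4) (by linarith) (by linarith)
  obtain ⟨N, hN⟩ := eventually_atTop.mp hrate
  have hm := main S hη h1 h2 hB hp
  have c1 := small (C := 4 * K) (show -β + ε / 4 < -(ε / 2) by linarith)
    (show (0 : ℝ) < 1 / (8 * (B + 1)) by positivity)
  have c2 := small (C := 4 * |c|) (show (-1 : ℝ) < -(ε / 2) by linarith)
    (show (0 : ℝ) < 1 / (8 * (B + 1)) by positivity)
  have c3 := small (C := K) (show -(3 * ε / 4) < -(ε / 2) by linarith)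
    (show (0 : ℝ) < 1 / (8 * (B + 1)) by positivity)
  have c4 := small (C := |c|) (show β - ε - 1 < -(ε / 2) by linarith)
    (show (0 : ℝ) < 1 / (8 * (B + 1)) by positivity)
  have c5 : ∀ᶠ n : ℕ in atTop, 2 * (K * (n : ℝ) ^ (-β + ε / 4)) + 2 * |c| / n < 1 / 2 := by
    have t1 := (rate_tend (K := K) (show ε / 4 < β by linarith)).const_mul 2
    have t2 : Tendsto (fun n : ℕ => 2 * |c| / (n : ℝ)) atTop (𝓝 0) :=
      tendsto_const_div_atTop_nhds_zero_nat _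
    have t := t1.add t2
    simp only [mul_zero, add_zero] at t
    exact t.eventually_lt_const (by norm_num)
  have c6 : ∀ᶠ n : ℕ in atTop, (n : ℝ) ^ (-(ε / 2)) ≤ 1 := by
    filter_upwards [eventually_ge_atTop 1] with n hn
    exact Real.rpow_le_one_of_one_le_of_nonpos (by exact_mod_cast hn) (by linarith)
  refine (hm.and_eventually (c1.and (c2.and (c3.and (c4.and (c5.and (c6.and
    (eventually_ge_atTop (max N 1))))))))).mono ?_
  rintro n ⟨⟨hnp, hn⟩, d1, d2, d3, d4, d5, d6, hn'⟩ m hmp hnm hmw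
  have hnN : N ≤ n := (le_max_left _ _).trans hn'
  have hn1 : 1 ≤ n := (le_max_right _ _).trans hn'
  have hn0 : (0 : ℝ) < n := by exact_mod_cast hn1
  obtain ⟨k, rfl⟩ : ∃ k, m = n + 2 * k := ⟨(m - n) / 2, by omega⟩
  have hm0 : (0 : ℝ) < ((n + 2 * k : ℕ) : ℝ) := by positivity
  have hk : (k : ℝ) ≤ (n : ℝ) ^ (β - ε) := by
    push_cast at hmw
    have : (0 : ℝ) ≤ k := Nat.cast_nonneg k
    linarith
  -- the error at `n`
  obtain ⟨x, hx⟩ : ∃ x, x = Real.log (u n) - c * Real.log n - Real.log B := ⟨_, rfl⟩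
  have hnc : (0 : ℝ) < (n : ℝ) ^ c := Real.rpow_pos_of_pos hn0 c
  have hun := H.pos n
  have hxle : |x| ≤ 2 * (2 * (K * (n : ℝ) ^ (-β + ε / 4)) + 2 * |c| / n) := by
    have h3 : |(u n / (n : ℝ) ^ c) / B - 1| ≤ 2 * (K * (n : ℝ) ^ (-β + ε / 4)) + 2 * |c| / n := by
      have e : (u n / (n : ℝ) ^ c) / B - 1 = (u n / (n : ℝ) ^ c - B) / B := by
        field_simp
      rw [e, abs_div, abs_of_pos hB, div_le_iff₀ hB, mul_comm _ B]
      exact hn
    have h4 := Pool.Agent.R79.SW.log_step hB (show 0 < u n / (n : ℝ) ^ c by positivity) h3 d5.le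
    rwa [Real.log_div hun.ne' hnc.ne', Real.log_rpow hn0, ← hx] at h4
  -- the error in the window
  have hw := window hK (show -β + ε / 4 ≤ 0 by linarith) hN hnN hn1 k
  obtain ⟨y, hy⟩ : ∃ y, y = Real.log (u (n + 2 * k)) - c * Real.log ((n + 2 * k : ℕ) : ℝ) -
    Real.log B := ⟨_, rfl⟩
  have hyx : |y - x| ≤ k * (K * (n : ℝ) ^ (-β + ε / 4)) + |c| * ((2 * k : ℕ) / n) := by
    have e : y - x = (Real.log (u (n + 2 * k)) - Real.log (u n)) +
        (-c) * (Real.log ((n + 2 * k : ℕ) : ℝ) - Real.log n) := by rw [hy, hx]; ring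
    rw [e]
    refine (abs_add_le _ _).trans (add_le_add hw ?_)
    rw [abs_mul, abs_neg]
    exact mul_le_mul_of_nonneg_left (Pool.Agent.R79.SW.log_add_le hn1 (2 * k)) (abs_nonneg c)
  have k1 : k * (K * (n : ℝ) ^ (-β + ε / 4)) ≤ K * (n : ℝ) ^ (-(3 * ε / 4)) := by
    have e : (n : ℝ) ^ (-(3 * ε / 4)) = (n : ℝ) ^ (β - ε) * (n : ℝ) ^ (-β + ε / 4) := by
      rw [← Real.rpow_add hn0]; congr 1; ring
    rw [e]
    have : 0 ≤ K * (n : ℝ) ^ (-β + ε / 4) := by positivity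
    nlinarith
  have k2 : |c| * ((2 * k : ℕ) / (n : ℝ)) ≤ |c| * (n : ℝ) ^ (β - ε - 1) := by
    refine mul_le_mul_of_nonneg_left ?_ (abs_nonneg c)
    have e : (n : ℝ) ^ (β - ε - 1) = (n : ℝ) ^ (β - ε) / n := by
      rw [Real.rpow_sub_one hn0.ne']
    rw [e]
    refine div_le_div_of_nonneg_right ?_ hn0.le
    push_cast at hmw ⊢
    linarith
  have hfin : |y| ≤ 1 / (2 * (B + 1)) * (n : ℝ) ^ (-(ε / 2)) := by
    have e1 : |y| ≤ |y - x| + |x| := by
      calc |y| = |(y - x) + x| := by ring_nf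
        _ ≤ _ := abs_add_le _ _
    have e2 : 2 * (2 * (K * (n : ℝ) ^ (-β + ε / 4)) + 2 * |c| / n) =
        4 * K * (n : ℝ) ^ (-β + ε / 4) + 4 * |c| * (n : ℝ) ^ (-1 : ℝ) := by
      rw [Real.rpow_neg_one]
      ring
    rw [e2] at hxle
    have e3 : 1 / (2 * (B + 1)) * (n : ℝ) ^ (-(ε / 2)) =
        4 * (1 / (8 * (B + 1)) * (n : ℝ) ^ (-(ε / 2))) := by
      field_simp
      norm_num
    rw [e3]
    linarith
  have hB1 : 1 / (2 * (B + 1)) ≤ 1 / 2 := by
    apply one_div_le_one_div_of_le <;> linarith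
  have hn2 : 0 ≤ (n : ℝ) ^ (-(ε / 2)) := by positivity
  have hy1 : |y| ≤ 1 := by nlinarith
  have e1 : u (n + 2 * k) / ((n + 2 * k : ℕ) : ℝ) ^ c = B * Real.exp y := by
    rw [hy, Real.exp_sub, Real.exp_sub, Real.exp_log (H.pos _), Real.exp_log hB, mul_comm c,
      ← Real.rpow_def_of_pos hm0]
    field_simp
  rw [e1, show B * Real.exp y - B = B * (Real.exp y - 1) by ring, abs_mul, abs_of_pos hB]
  have h5 := Real.abs_exp_sub_one_le hy1
  calc B * |Real.exp y - 1| ≤ B * (2 * (1 / (2 * (B + 1)) * (n : ℝ) ^ (-(ε / 2)))) :=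
        mul_le_mul_of_nonneg_left (h5.trans (by linarith)) hB.le
    _ = (B / (B + 1)) * (n : ℝ) ^ (-(ε / 2)) := by field_simp
    _ ≤ 1 * (n : ℝ) ^ (-(ε / 2)) := by
        refine mul_le_mul_of_nonneg_right ?_ hn2
        rw [div_le_one (by linarith)]
        linarith
    _ = _ := one_mul _

end Pool.Agent.D0H94.G3
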